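import Pool.Agent.H97.NR.Stmts

namespace Pool.NR

namespace V2C

variable {p : ℕ}

def A (B : Fin 3 → Fin 3 → ZMod p) : Prop := B 1 1 = 0 ∧ B 2 2 = 0 ∧ B 1 2 + B 2 1 = 0
def D (B : Fin 3 → Fin 3 → ZMod p) : Prop := B 1 1 * B 2 2 - B 1 2 * B 2 1 = 0
def S (B : Fin 3 → Fin 3 → ZMod p) : Prop := B 1 2 - B 2 1 = 0
def R (B : Fin 3 → Fin 3 → ZMod p) : Prop :=
  4 * (B 1 1 * B 2 2 - B 1 2 * B 2 1) - (B 1 2 - B 2 1) ^ 2 = 0

theorem inv [Fact p.Prime] (B B' : Fin 3 → Fin 3 → ZMod p) (h : Eq2b B B') :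
    (A B ↔ A B') ∧ (D B ↔ D B') ∧ (S B ↔ S B') ∧ (R B ↔ R B') := by
  obtain ⟨u, h1, h2, g11, g12, g21, g22, hu, hg, hE⟩ := h
  have e11 := hE 1 1
  have e12 := hE 1 2
  have e21 := hE 2 1
  have e22 := hE 2 2
  simp only [Fin.sum_univ_three, Fin.isValue, Matrix.cons_val_zero, Matrix.cons_val_one,
    Matrix.cons_val] at e11 e12 e21 e22
  have hu2 : u ^ 2 ≠ 0 := pow_ne_zero 2 hu
  have hg2 : (g11 * g22 - g12 * g21) ^ 2 ≠ 0 := pow_ne_zero 2 hg
  have kS : u * (B' 1 2 - B' 2 1) = (g11 * g22 - g12 * g21) * (B 1 2 - B 2 1) := by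
    linear_combination e12 - e21
  have kD : u ^ 2 * (B' 1 1 * B' 2 2 - B' 1 2 * B' 2 1) =
      (g11 * g22 - g12 * g21) ^ 2 * (B 1 1 * B 2 2 - B 1 2 * B 2 1) := by
    have : u ^ 2 * (B' 1 1 * B' 2 2 - B' 1 2 * B' 2 1) =
        (u * B' 1 1) * (u * B' 2 2) - (u * B' 1 2) * (u * B' 2 1) := by ring
    rw [this, e11, e12, e21, e22]
    ring
  have kR : u ^ 2 * (4 * (B' 1 1 * B' 2 2 - B' 1 2 * B' 2 1) - (B' 1 2 - B' 2 1) ^ 2) =
      (g11 * g22 - g12 * g21) ^ 2 *
        (4 * (B 1 1 * B 2 2 - B 1 2 * B 2 1) - (B 1 2 - B 2 1) ^ 2) := by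
    have h3 : (u * (B' 1 2 - B' 2 1)) ^ 2 =
      ((g11 * g22 - g12 * g21) * (B 1 2 - B 2 1)) ^ 2 := by rw [kS]
    linear_combination 4 * kD - h3
  have two : ∀ x y a b : ZMod p, a ≠ 0 → b ≠ 0 → a * y = b * x → (x = 0 ↔ y = 0) := by
    intro x y a b ha hb h
    constructor
    · intro hx
      rw [hx, mul_zero] at h
      exact (mul_eq_zero.mp h).resolve_left ha
    · intro hy
      rw [hy, mul_zero] at h
      exact (mul_eq_zero.mp h.symm).resolve_left hb
  refine ⟨⟨?_, ?_⟩, two _ _ _ _ hu2 hg2 kD, two _ _ _ _ hu hg kS, two _ _ _ _ hu2 hg2 kR⟩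
  · rintro ⟨a1, a2, a3⟩
    refine ⟨?_, ?_, ?_⟩
    · refine (mul_eq_zero.mp (?_ : u * B' 1 1 = 0)).resolve_left hu
      linear_combination e11 + g11 * g11 * a1 + g21 * g21 * a2 + g11 * g21 * a3
    · refine (mul_eq_zero.mp (?_ : u * B' 2 2 = 0)).resolve_left hu
      linear_combination e22 + g12 * g12 * a1 + g22 * g22 * a2 + g12 * g22 * a3
    · refine (mul_eq_zero.mp (?_ : u * (B' 1 2 + B' 2 1) = 0)).resolve_left hu
      linear_combination e12 + e21 + 2 * g11 * g12 * a1 + 2 * g21 * g22 * a2 +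
        (g11 * g22 + g12 * g21) * a3
  · rintro ⟨a1, a2, a3⟩
    refine ⟨?_, ?_, ?_⟩
    · refine (mul_eq_zero.mp (?_ : (g11 * g22 - g12 * g21) ^ 2 * B 1 1 = 0)).resolve_left hg2
      linear_combination -(g22 * g22) * e11 + (g21 * g22) * e12 + (g21 * g22) * e21 -
        (g21 * g21) * e22 + u * (g22 * g22) * a1 + u * (g21 * g21) * a2 - u * (g21 * g22) * a3
    · refine (mul_eq_zero.mp (?_ : (g11 * g22 - g12 * g21) ^ 2 * B 2 2 = 0)).resolve_left hg2
      linear_combination -(g12 * g12) * e11 + (g11 * g12) * e12 + (g11 * g12) * e21 -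
        (g11 * g11) * e22 + u * (g12 * g12) * a1 + u * (g11 * g11) * a2 - u * (g11 * g12) * a3
    · refine (mul_eq_zero.mp (?_ : (g11 * g22 - g12 * g21) ^ 2 * (B 1 2 + B 2 1) = 0)).resolve_left
        hg2
      linear_combination (2 * g22 * g12) * e11 - (g22 * g11 + g21 * g12) * e12 -
        (g22 * g11 + g21 * g12) * e21 + (2 * g21 * g11) * e22 - 2 * u * (g22 * g12) * a1 -
        2 * u * (g21 * g11) * a2 + u * (g22 * g11 + g21 * g12) * a3

end V2C

open V2C in
theorem v2c : V2CStmt := by
  intro p _ B B' hB hB' hE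
  have hinv := inv B B' hE
  have cO : ∀ B : Fin 3 → Fin 3 → ZMod p, NF2bO B → A B ∧ D B := by
    intro B h
    cases h <;> simp [A, D, T2b]
  have cJ : ∀ B : Fin 3 → Fin 3 → ZMod p, NF2bJ B → A B ∧ ¬ D B := by
    intro B h
    cases h <;> simp [A, D, T2b]
  have cD : ∀ B : Fin 3 → Fin 3 → ZMod p, NF2bD B → ¬ A B ∧ D B ∧ S B := by
    intro B h
    cases h <;> simp [A, D, S, T2b]
  have cE : ∀ B : Fin 3 → Fin 3 → ZMod p, NF2bE B → ¬ A B ∧ D B ∧ ¬ S B := by
    intro B h
    cases h <;> simp [A, D, S, T2b]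
  have cM : ∀ B : Fin 3 → Fin 3 → ZMod p, NF2bM B → ¬ A B ∧ ¬ D B ∧ ¬ S B ∧ ¬ R B := by
    intro B h
    cases h with
    | m1 δ a h0 h1 h2 =>
      refine ⟨?_, ?_, ?_, ?_⟩
      · simp [A, T2b]
      · simpa [D, T2b] using h0
      · simp [S, T2b]
      · intro hR
        simp [R, T2b] at hR
        exact h1 (by linear_combination hR)
    | m2 δ a h0 h1 =>
      refine ⟨?_, ?_, ?_, ?_⟩
      · simp [A, T2b]
      · simpa [D, T2b] using h0
      · simp [S, T2b]
      · intro hR
        simp [R, T2b] at hR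
        exact h1 (by linear_combination hR)
    | m3 τ a h0 h1 h2 h3 =>
      refine ⟨?_, ?_, ?_, ?_⟩
      · intro hA
        simp [A, T2b] at hA
        exact h2 (by linear_combination hA)
      · simpa [D, T2b] using h0
      · intro hS
        simp [S, T2b] at hS
        exact h1 (by linear_combination -hS)
      · intro hR
        simp [R, T2b] at hR
        have : (τ + 1) * (τ + 1) = 0 := by linear_combination -hR
        have h4 : τ + 1 = 0 := by simpa using this
        exact h2 (by linear_combination h4)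
  have cK : ∀ B : Fin 3 → Fin 3 → ZMod p, NF2bK B → ¬ A B ∧ ¬ D B ∧ ¬ S B ∧ R B := by
    have aux : p ≠ 2 → (1 : ZMod p) - (-1) ≠ 0 := by
      intro hp h
      have h2 : ((2 : ℕ) : ZMod p) = 0 := by push_cast; linear_combination h
      rw [ZMod.natCast_eq_zero_iff] at h2
      exact hp ((Nat.prime_dvd_prime_iff_eq Fact.out Nat.prime_two).mp h2)
    intro B h
    cases h with
    | k1 a hp h =>
      refine ⟨?_, ?_, ?_, ?_⟩
      · simp [A, T2b]
      · simp [D, T2b]
      · simpa [S, T2b] using aux hp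
      · simp [R, T2b]; ring
    | k2 a hp =>
      refine ⟨?_, ?_, ?_, ?_⟩
      · simp [A, T2b]
      · simp [D, T2b]
      · simpa [S, T2b] using aux hp
      · simp [R, T2b]; ring
    | k3 a hp =>
      refine ⟨?_, ?_, ?_, ?_⟩
      · simp [A, T2b]
      · simp [D, T2b]
      · simpa [S, T2b] using aux hp
      · simp [R, T2b]; ring
  have cS : ∀ B : Fin 3 → Fin 3 → ZMod p, NF2bS B → ¬ A B ∧ ¬ D B ∧ S B := by
    have aux : p ≠ 2 → (1 : ZMod p) + 1 ≠ 0 := by
      intro hp h
      have h2 : ((2 : ℕ) : ZMod p) = 0 := by push_cast; linear_combination h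
      rw [ZMod.natCast_eq_zero_iff] at h2
      exact hp ((Nat.prime_dvd_prime_iff_eq Fact.out Nat.prime_two).mp h2)
    intro B h
    cases h with
    | s1 s a h0 h1 =>
      refine ⟨?_, ?_, ?_⟩
      · simp [A, T2b]
      · simpa [D, T2b] using h0.1
      · simp [S, T2b]
    | s2 s a h0 =>
      refine ⟨?_, ?_, ?_⟩
      · simp [A, T2b]
      · simpa [D, T2b] using h0.1
      · simp [S, T2b]
    | s3 a hp h =>
      refine ⟨?_, ?_, ?_⟩
      · simpa [A, T2b] using aux hp
      · simp [D, T2b]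
      · simp [S, T2b]
    | s4 a hp h =>
      refine ⟨?_, ?_, ?_⟩
      · simp [A, T2b]
      · simp [D, T2b]
      · simp [S, T2b]
  cases hB with
  | o h => 
    have c := cO B h
    cases hB' with
    | o h' => exact Or.inl ⟨h, h'⟩
    | d h' => have c' := cD B' h'; grind
    | e h' => have c' := cE B' h'; grind
    | j h' => have c' := cJ B' h'; grind
    | m h' => have c' := cM B' h'; grind
    | k h' => have c' := cK B' h'; grind
    | s h' => have c' := cS B' h'; grind
  | d h => 
    have c := cD B h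
    cases hB' with
    | o h' => have c' := cO B' h'; grind
    | d h' => grind
    | e h' => have c' := cE B' h'; grind
    | j h' => have c' := cJ B' h'; grind
    | m h' => have c' := cM B' h'; grind
    | k h' => have c' := cK B' h'; grind
    | s h' => have c' := cS B' h'; grind
  | e h => 
    have c := cE B h
    cases hB' with
    | o h' => have c' := cO B' h'; grind
    | d h' => have c' := cD B' h'; grind
    | e h' => grind
    | j h' => have c' := cJ B' h'; grind
    | m h' => have c' := cM B' h'; grind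
    | k h' => have c' := cK B' h'; grind
    | s h' => have c' := cS B' h'; grind
  | j h => 
    have c := cJ B h
    cases hB' with
    | o h' => have c' := cO B' h'; grind
    | d h' => have c' := cD B' h'; grind
    | e h' => have c' := cE B' h'; grind
    | j h' => grind
    | m h' => have c' := cM B' h'; grind
    | k h' => have c' := cK B' h'; grind
    | s h' => have c' := cS B' h'; grind
  | m h => 
    have c := cM B h
    cases hB' with
    | o h' => have c' := cO B' h'; grind
    | d h' => have c' := cD B' h'; grind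
    | e h' => have c' := cE B' h'; grind
    | j h' => have c' := cJ B' h'; grind
    | m h' => grind
    | k h' => have c' := cK B' h'; grind
    | s h' => have c' := cS B' h'; grind
  | k h => 
    have c := cK B h
    cases hB' with
    | o h' => have c' := cO B' h'; grind
    | d h' => have c' := cD B' h'; grind
    | e h' => have c' := cE B' h'; grind
    | j h' => have c' := cJ B' h'; grind
    | m h' => have c' := cM B' h'; grind
    | k h' => grind
    | s h' => have c' := cS B' h'; grind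
  | s h => 
    have c := cS B h
    cases hB' with
    | o h' => have c' := cO B' h'; grind
    | d h' => have c' := cD B' h'; grind
    | e h' => have c' := cE B' h'; grind
    | j h' => have c' := cJ B' h'; grind
    | m h' => have c' := cM B' h'; grind
    | k h' => have c' := cK B' h'; grind
    | s h' => grind

end Pool.NR
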