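import Pool.Agent.H97.NR.Stmts

namespace Pool.NR

theorem w3x : W3XStmt := by
  intro p _ B B' hB hB' hE
  obtain ⟨g, h, hdet, hdeth, hE⟩ := hE
  rw [Matrix.det_fin_two] at hdet hdeth
  have key : ∀ (x y z x' y' z' : ZMod p), x ≠ y → x' ≠ y' →
      (∀ i j l, ∑ k, h l k * T22 1 0 0 0 0 x' y' z' k i j =
        ∑ a, ∑ b, g a i * g b j * T22 1 0 0 0 0 x y z l a b) →
      h 1 1 ≠ 0 ∧ g 0 0 * g 1 1 ≠ 0 ∧ h 1 1 * x' = g 0 0 * g 1 1 * x + g 1 0 * g 1 1 * z ∧
      h 1 1 * y' = g 0 0 * g 1 1 * y + g 1 0 * g 1 1 * z ∧ h 1 1 * z' = g 1 1 * g 1 1 * z := by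
    intro x y z x' y' z' hxy hxy' hE
    have h010 := hE 0 1 0
    have h011 := hE 0 1 1
    have h100 := hE 1 0 0
    have h101 := hE 1 0 1
    have h110 := hE 1 1 0
    have h111 := hE 1 1 1
    simp only [T22, Fin.sum_univ_two, Fin.isValue, Matrix.cons_val_zero, Matrix.cons_val_one,
      Matrix.cons_val_fin_one] at h010 h011 h100 h101 h110 h111
    have e1 : h 0 1 * (x' - y') = 0 := by linear_combination h010 - h100
    have f1 : h 0 1 = 0 := (mul_eq_zero.mp e1).resolve_right (sub_ne_zero.mpr hxy')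
    have e2 : g 0 1 * g 0 1 = 0 := by linear_combination -h110 + z' * f1
    have f2 : g 0 1 = 0 := by simpa using e2
    rw [f1] at hdeth
    rw [f2] at hdet h011 h101 h111
    refine ⟨?_, ?_, ?_, ?_, ?_⟩
    · intro h0
      exact hdeth (by rw [h0]; ring)
    · intro h0
      exact hdet (by linear_combination h0)
    · linear_combination h011
    · linear_combination h101
    · linear_combination h111
  cases hB with
  | x1 τ hτ =>
    cases hB' with
    | x1 τ' hτ' =>
      obtain ⟨k1, k2, k3, k4, k5⟩ := key 1 τ 0 1 τ' 0 (Ne.symm hτ) (Ne.symm hτ') hE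
      have : h 1 1 * (τ - τ') = 0 := by linear_combination τ * k3 - k4
      rw [sub_eq_zero.mp ((mul_eq_zero.mp this).resolve_left k1)]
    | x2 =>
      obtain ⟨k1, k2, k3, k4, k5⟩ := key 1 τ 0 0 1 0 (Ne.symm hτ) zero_ne_one hE
      exact absurd (by linear_combination -k3) k2
    | x3 =>
      obtain ⟨k1, k2, k3, k4, k5⟩ := key 1 τ 0 1 0 1 (Ne.symm hτ) one_ne_zero hE
      exact absurd (by linear_combination k5) k1
  | x2 =>
    cases hB' with
    | x1 τ' hτ' =>
      obtain ⟨k1, k2, k3, k4, k5⟩ := key 0 1 0 1 τ' 0 zero_ne_one (Ne.symm hτ') hE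
      exact absurd (by linear_combination k3) k1
    | x2 => rfl
    | x3 =>
      obtain ⟨k1, k2, k3, k4, k5⟩ := key 0 1 0 1 0 1 zero_ne_one one_ne_zero hE
      exact absurd (by linear_combination k5) k1
  | x3 =>
    cases hB' with
    | x1 τ' hτ' =>
      obtain ⟨k1, k2, k3, k4, k5⟩ := key 1 0 1 1 τ' 0 one_ne_zero (Ne.symm hτ') hE
      have : g 1 1 * g 1 1 = 0 := by linear_combination -k5
      have h0 : g 1 1 = 0 := by simpa using this
      exact absurd (by rw [h0]; ring) k2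
    | x2 =>
      obtain ⟨k1, k2, k3, k4, k5⟩ := key 1 0 1 0 1 0 one_ne_zero zero_ne_one hE
      have : g 1 1 * g 1 1 = 0 := by linear_combination -k5
      have h0 : g 1 1 = 0 := by simpa using this
      exact absurd (by rw [h0]; ring) k2
    | x3 => rfl

end Pool.NR
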