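import Pool.Agent.H97.NR.Stmts

namespace Pool.NR

theorem y3g : Y3GStmt := by
  intro p _ B B' hB hB' hE
  obtain ⟨g, hdet, hE⟩ := hE
  rw [Matrix.det_fin_two] at hdet
  cases hB with
  | g a c d e =>
  cases hB' with
  | g a' c' d' e' =>
  have h000 := hE 0 0 0
  have h001 := hE 0 0 1
  have h010 := hE 0 1 0
  have h011 := hE 0 1 1
  have h100 := hE 1 0 0
  have h101 := hE 1 0 1
  have h110 := hE 1 1 0
  have h111 := hE 1 1 1
  simp only [T22, Fin.sum_univ_two, Fin.isValue, Matrix.cons_val_zero, Matrix.cons_val_one,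
    Matrix.cons_val_fin_one] at h000 h001 h010 h011 h100 h101 h110 h111
  have e1 : (g 0 0 * g 1 1 - g 0 1 * g 1 0) * (g 0 0 - 1) = 0 := by
    linear_combination -g 1 1 * h000 + g 0 1 * h001 + g 1 0 * h010 - g 0 0 * h011
  have e2 : (g 0 0 * g 1 1 - g 0 1 * g 1 0) * g 0 1 = 0 := by
    linear_combination -g 1 1 * h100 + g 0 1 * h101 + g 1 0 * h110 - g 0 0 * h111
  have e3 : (g 0 0 * g 1 1 - g 0 1 * g 1 0) * g 1 0 = 0 := by
    linear_combination -g 1 1 * h000 + g 0 1 * h001 + g 1 0 * h100 - g 0 0 * h101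
  have e4 : (g 0 0 * g 1 1 - g 0 1 * g 1 0) * (g 1 1 - 1) = 0 := by
    linear_combination -g 1 1 * h010 + g 0 1 * h011 + g 1 0 * h110 - g 0 0 * h111
  have f1 : g 0 0 = 1 := sub_eq_zero.mp ((mul_eq_zero.mp e1).resolve_left hdet)
  have f2 : g 0 1 = 0 := (mul_eq_zero.mp e2).resolve_left hdet
  have f3 : g 1 0 = 0 := (mul_eq_zero.mp e3).resolve_left hdet
  have f4 : g 1 1 = 1 := sub_eq_zero.mp ((mul_eq_zero.mp e4).resolve_left hdet)
  simp only [f1, f2, f3, f4] at h000 h001 h110 h111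
  have ha : a = a' := by linear_combination -h000
  have hd : d = d' := by linear_combination -h001
  have hc : c = c' := by linear_combination -h110
  have he : e = e' := by linear_combination -h111
  rw [ha, hd, hc, he]

end Pool.NR
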